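import Mathlib
import Pool.Agent.Run7.h788.FieldDef
import Pool.Agent.Y787.PInst

/-!
# The `p`-adic strong four exponentials conjecture: matrices with many conjugates

Let `C` be the algebraic closure of `ℚ_p`, let `ℚ̄ ⊂ C` be the field of algebraic numbers, let `LogForms` be
the space of all linear combinations, with algebraic coefficients, of `1` and of values of the Iwasawa
logarithm at algebraic numbers, and let `E` be an arbitrary field between `ℚ_p` and `C` (for instance
`ℚ_p`).

1. Let `a, b, c, d` be ARBITRARY elements of `LogForms` such that `b / a` is a transcendental element of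
   `E`.  If three of the conjugates of `a` and `c` over `E` are linearly independent over `ℚ̄`, then
   `a d ≠ b c`: the conjecture is true for the matrix `(a, b; c, d)`.  So for given `a, b` in `E` (for
   instance logarithms of algebraic numbers in `E`) and given `c` which has a conjugate `σ(c)` over `E`
   such that `a, c, σ(c)` are linearly independent the conjecture is true with an ARBITRARY fourth entry
   `d`.  For instance `a = log 2`, `b = log 3` and `c = log (2 + i)` for `p` congruent to `3` modulo `4`,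
   `p ≠ 3`.
2. In particular the case `a = 1`: let `α` and `β` be nonzero algebraic numbers, `β` in `E` and
   `log β ≠ 0`, such that `log α` and `log σ(α)` are linearly independent over `ℚ` for some automorphism
   `σ` of `C` over `E`.  Then the product `log α log β` is not in `LogForms`; it is transcendental, and
   not a linear form in logarithms of algebraic numbers.  For instance `log 2 log (2 + i)` for `p`
   congruent to `3` modulo `4`.

The proof.  The Galois group of `C / ℚ_p` commutes with the Iwasawa logarithm (`log_aut`).  If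
`a d = b c` then `a` and `c`, and hence all their conjugates over `E`, are elements `u` of `LogForms` with
`u b / a` in `LogForms`.  By the strong six exponentials theorem they span at most a plane.  For complex
logarithms and complex conjugation this argument is due to G. Diaz.
-/

set_option autoImplicit false

namespace Pool.Agent.Results.MP_dd0d16_nt.ConjugatesCriterion

/-- `L` is the Iwasawa `p`-adic logarithm on the algebraic closure of `ℚ_p`. -/
def IsIwasawaLog (p : ℕ) [Fact p.Prime] (L : PadicAlgCl p → PadicAlgCl p) : Prop :=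
  (∀ x y : PadicAlgCl p, x ≠ 0 → y ≠ 0 → L (x * y) = L x + L y) ∧
  L ((p : ℕ) : PadicAlgCl p) = 0 ∧
  ∀ z : PadicAlgCl p, ‖z‖ < 1 →
    HasSum (fun n : ℕ => (-1 : PadicAlgCl p) ^ n * z ^ (n + 1) / ((n : PadicAlgCl p) + 1))
      (L (1 + z))

/-- The linear forms in `1` and the logarithms `L α` of nonzero algebraic numbers `α`, with algebraic
coefficients. -/
noncomputable def LogForms {p : ℕ} [Fact p.Prime] (L : PadicAlgCl p → PadicAlgCl p) :
    Submodule (algebraicClosure ℚ (PadicAlgCl p)) (PadicAlgCl p) :=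
  Submodule.span (algebraicClosure ℚ (PadicAlgCl p))
    ({1} ∪ {z | ∃ α : PadicAlgCl p, α ≠ 0 ∧ IsAlgebraic ℚ α ∧ z = L α})

/-- `y` is a conjugate of `x` over `E`. -/
def IsConjugate {p : ℕ} [Fact p.Prime] (E : IntermediateField ℚ_[p] (PadicAlgCl p))
    (x y : PadicAlgCl p) : Prop :=
  ∃ σ : PadicAlgCl p ≃ₐ[ℚ_[p]] PadicAlgCl p, (∀ z ∈ E, σ z = z) ∧ y = σ x

theorem criterion {p : ℕ} [Fact p.Prime] {L : PadicAlgCl p → PadicAlgCl p}
    (hL : IsIwasawaLog p L) (E : IntermediateField ℚ_[p] (PadicAlgCl p)) (a b c d : PadicAlgCl p)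
    (ha : a ∈ LogForms L) (hb : b ∈ LogForms L) (hc : c ∈ LogForms L) (hd : d ∈ LogForms L)
    (hE : b / a ∈ E) (ht : ¬ IsAlgebraic ℚ (b / a)) (w : Fin 3 → PadicAlgCl p)
    (hw : LinearIndependent (algebraicClosure ℚ (PadicAlgCl p)) w)
    (hconj : ∀ i, IsConjugate E a (w i) ∨ IsConjugate E c (w i)) : a * d ≠ b * c := by
  have hL' : Pool.Agent.W245.PB.IsIwasawaLog p L := ⟨hL.1, hL.2.1, hL.2.2⟩
  intro h
  have ha0 : a ≠ 0 := by
    rintro rfl
    rw [div_zero] at ht
    exact ht isAlgebraic_zero
  have hta : b / a * a = b := div_mul_cancel₀ b ha0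
  have htc : b / a * c = d := by
    field_simp
    linear_combination -h
  have key : ∀ u v : PadicAlgCl p, u ∈ LogForms L → b / a * u ∈ LogForms L → IsConjugate E u v →
      v ∈ LogForms L ∧ b / a * v ∈ LogForms L := by
    rintro u v hu htu ⟨σ, hσ, rfl⟩
    refine ⟨Run7.h788.logs_stable hL' σ hu, ?_⟩
    have h1 : b / a * σ u = σ (b / a * u) := by rw [map_mul, hσ _ hE]
    rw [h1]
    exact Run7.h788.logs_stable hL' σ htu
  have hall : ∀ i, w i ∈ LogForms L ∧ b / a * w i ∈ LogForms L := by
    intro i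
    rcases hconj i with h1 | h1
    · exact key a _ ha (by rw [hta]; exact hb) h1
    · exact key c _ hc (by rw [htc]; exact hd) h1
  refine Pool.Agent.N770.sixExp_padic hL' (b / a) ?_ w hw (fun i => (hall i).1)
    (fun i => (hall i).2)
  intro k hk
  rw [hk] at ht
  exact ht (Run7.h788.mem_QQ.1 k.2)

/-- **Main result.** -/
theorem result (p : ℕ) [Fact p.Prime] (L : PadicAlgCl p → PadicAlgCl p) (hL : IsIwasawaLog p L)
    (E : IntermediateField ℚ_[p] (PadicAlgCl p)) :
    (∀ a b c d : PadicAlgCl p, a ∈ LogForms L → b ∈ LogForms L → c ∈ LogForms L →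
      d ∈ LogForms L → b / a ∈ E → ¬ IsAlgebraic ℚ (b / a) →
      ∀ w : Fin 3 → PadicAlgCl p, LinearIndependent (algebraicClosure ℚ (PadicAlgCl p)) w →
      (∀ i, IsConjugate E a (w i) ∨ IsConjugate E c (w i)) → a * d ≠ b * c) ∧
    ∀ α α' β : PadicAlgCl p, α ≠ 0 → IsAlgebraic ℚ α → IsConjugate E α α' →
      LinearIndependent ℚ ![L α, L α'] → β ≠ 0 → IsAlgebraic ℚ β → β ∈ E → L β ≠ 0 →
      L α * L β ∉ LogForms L := by
  have hL' : Pool.Agent.W245.PB.IsIwasawaLog p L := ⟨hL.1, hL.2.1, hL.2.2⟩
  refine ⟨fun a b c d ha hb hc hd hE ht w hw hconj =>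
    criterion hL E a b c d ha hb hc hd hE ht w hw hconj, ?_⟩
  rintro α _ β hα halg ⟨σ, hσ, rfl⟩ hli hβ hβalg hβE hβ0 hmem
  have hσα : σ α ≠ 0 := (map_ne_zero σ).2 hα
  have h1 : (1 : PadicAlgCl p) ∈ LogForms L := Submodule.subset_span (Or.inl rfl)
  have hβL : L β ∈ LogForms L := Submodule.subset_span (Or.inr ⟨β, hβ, hβalg, rfl⟩)
  have hαL : L α ∈ LogForms L := Submodule.subset_span (Or.inr ⟨α, hα, halg, rfl⟩)
  have hβL' : L β ∈ E := by
    apply Run7.h788.mem_of_fixed
    intro g hg
    rw [Run7.h788.log_aut hL' g hβ, Run7.h788.fixed_of_mem E hβE hg]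
  have htr : ¬ IsAlgebraic ℚ (L β) := by
    intro halgL
    have h2 : LinearIndependent ℚ (fun _ : Fin 1 => L β) := by
      rw [linearIndependent_unique_iff]
      exact hβ0
    have h3 := Pool.Agent.Y787.li_consP hL' (fun _ : Fin 1 => L β)
      (fun _ => ⟨β, hβ, hβalg, rfl⟩) h2
    have h4 := Fintype.linearIndependent_iff.1 h3
      (Fin.cons ⟨L β, Run7.h788.mem_QQ.2 halgL⟩ fun _ => -1) (by
        rw [Fin.sum_univ_succ, Fin.sum_univ_one]
        simp only [Fin.cons_zero, Fin.cons_succ]
        rw [Algebra.smul_def, mul_one, neg_smul, one_smul]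
        exact add_neg_cancel _) 1
    change (-1 : algebraicClosure ℚ (PadicAlgCl p)) = 0 at h4
    simp at h4
  have hw := Pool.Agent.Y787.li_consP hL' ![L α, L (σ α)] (by
    intro j
    fin_cases j
    · exact ⟨α, hα, halg, rfl⟩
    · exact ⟨σ α, hσα, Run7.h788.isAlgebraic_aut σ halg, rfl⟩) hli
  refine criterion hL E 1 (L β) (L α) (L α * L β) h1 hβL hαL hmem (by rwa [div_one])
    (by rwa [div_one]) _ hw ?_ (by ring)
  intro i
  fin_cases i
  · exact Or.inl ⟨AlgEquiv.refl, fun _ _ => rfl, rfl⟩
  · exact Or.inr ⟨AlgEquiv.refl, fun _ _ => rfl, rfl⟩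
  · exact Or.inr ⟨σ, hσ, (Run7.h788.log_aut hL' σ hα).symm⟩

end Pool.Agent.Results.MP_dd0d16_nt.ConjugatesCriterion
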