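import Mathlib
import Pool.Agent.Run7.h788.FieldDef

/-!
# The `p`-adic strong four exponentials conjecture: fields of definition of counterexamples

Let `C` be the algebraic closure of `ℚ_p`, let `ℚ̄ ⊂ C` be the field of algebraic numbers, and let
`LogForms` be the space of all linear combinations, with algebraic coefficients, of `1` and of values of
the Iwasawa logarithm at algebraic numbers.  A counterexample to the `p`-adic strong four exponentials
conjecture is a singular `2 × 2` matrix `M = (a, b; c, d)` with entries in `LogForms` whose rows and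
whose columns are linearly independent over `ℚ̄`.  With `M` all matrices `A M B`, where `A` and `B` are
invertible matrices of algebraic numbers, are counterexamples (equivalent to `M`).  The Galois group of
`C / ℚ_p` acts on `LogForms`, hence on the counterexamples.

We prove that every counterexample `M` has a smallest field of definition `E₀`, a finite extension of
`ℚ_p`: for every field `ℚ_p ⊆ E ⊆ C` the following are equivalent:

1. `E` contains `E₀`;
2. `M` is equivalent to a matrix with entries in `E`;
3. the ratio `b / a` of the columns is, up to a fractional linear transformation with algebraic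
   coefficients, an element of `E`;
4. the ratio `c / a` of the rows is, up to such a transformation, an element of `E`;
5. `M` is equivalent to all its conjugates over `E`.

In particular the conjecture is true for all matrices such that one of the two ratios can be transformed
to an element of `E` (for instance, is an element of `E`, where `E = ℚ_p` is allowed) and the other one
can not; and in the remaining cases it is enough to consider the matrices with entries in `E` and in
`LogForms`.  So the conjecture for the whole algebraic closure of `ℚ_p` is reduced, one pair of ratios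
after the other, to matrices over the smallest fields which contain the ratios.

The proof.  (3) implies (2): let the ratio of the columns be in `E` and let `U` be the plane of the first
column.  By the strong six exponentials theorem `U` is the set of all `u` in `LogForms` such that `u b / a`
is in `LogForms`, so that `U` is stable under the Galois group of `C / E`.  By Krasner's lemma every
element of `C` generates the same field as some algebraic number, and this allows one to apply
Lagrange interpolation and traces to show that `U` is spanned by elements of `E` (`descent_sub`).  (5)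
implies (3): this says that the field of moduli of a transcendental number `t` in `C`, modulo fractional
linear transformations with algebraic coefficients, is a field of definition (`moduli`).  The action of
the Galois group twists the projective line over the algebraic numbers, and the corresponding
quaternion algebra `D` over `E ∩ ℚ̄` is split over `E`, because `t` is a point over `E` of the conic.  An
element of `D ⊗ E` with image in the line of `(t, 1)` and nonzero trace is approximated by elements of
`D`; as the discriminants of their characteristic polynomials are close to a nonzero square, they are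
squares in `E`, and one obtains an element of rank one in `D` (`exists_inv_rank`).
-/

set_option autoImplicit false

namespace Pool.Agent.Results.MP_dd0d16_nt.FieldOfDefinition

/-- `L` is the Iwasawa `p`-adic logarithm on the algebraic closure of `ℚ_p`. -/
def IsIwasawaLog (p : ℕ) [Fact p.Prime] (L : PadicAlgCl p → PadicAlgCl p) : Prop :=
  (∀ x y : PadicAlgCl p, x ≠ 0 → y ≠ 0 → L (x * y) = L x + L y) ∧
  L ((p : ℕ) : PadicAlgCl p) = 0 ∧
  ∀ z : PadicAlgCl p, ‖z‖ < 1 →
    HasSum (fun n : ℕ => (-1 : PadicAlgCl p) ^ n * z ^ (n + 1) / ((n : PadicAlgCl p) + 1))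
      (L (1 + z))

/-- The linear forms in `1` and the logarithms `L α` of nonzero algebraic numbers `α`, with algebraic
coefficients. -/
noncomputable def LogForms {p : ℕ} [Fact p.Prime] (L : PadicAlgCl p → PadicAlgCl p) :
    Submodule (algebraicClosure ℚ (PadicAlgCl p)) (PadicAlgCl p) :=
  Submodule.span (algebraicClosure ℚ (PadicAlgCl p))
    ({1} ∪ {z | ∃ α : PadicAlgCl p, α ≠ 0 ∧ IsAlgebraic ℚ α ∧ z = L α})

/-- `M` is a counterexample to the `p`-adic strong four exponentials conjecture. -/
def IsCounterexample {p : ℕ} [Fact p.Prime] (L : PadicAlgCl p → PadicAlgCl p)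
    (M : Matrix (Fin 2) (Fin 2) (PadicAlgCl p)) : Prop :=
  (∀ i j, M i j ∈ LogForms L) ∧ M.det = 0 ∧
  LinearIndependent (algebraicClosure ℚ (PadicAlgCl p)) (fun i : Fin 2 => fun j : Fin 2 => M i j) ∧
  LinearIndependent (algebraicClosure ℚ (PadicAlgCl p)) (fun j : Fin 2 => fun i : Fin 2 => M i j)

/-- `M' = A M B` with invertible matrices `A` and `B` of algebraic numbers. -/
def Equivalent {p : ℕ} [Fact p.Prime] (M M' : Matrix (Fin 2) (Fin 2) (PadicAlgCl p)) : Prop :=
  ∃ A B : Matrix (Fin 2) (Fin 2) (algebraicClosure ℚ (PadicAlgCl p)), A.det ≠ 0 ∧ B.det ≠ 0 ∧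
    M' = A.map (algebraMap _ (PadicAlgCl p)) * M * B.map (algebraMap _ (PadicAlgCl p))

/-- `M` is equivalent to a matrix with entries in `E`. -/
def IsDefinedOver {p : ℕ} [Fact p.Prime] (E : IntermediateField ℚ_[p] (PadicAlgCl p))
    (M : Matrix (Fin 2) (Fin 2) (PadicAlgCl p)) : Prop :=
  ∃ M' : Matrix (Fin 2) (Fin 2) (PadicAlgCl p), Equivalent M M' ∧ ∀ i j, M' i j ∈ E

/-- A fractional linear transformation with algebraic coefficients maps `t` to an element of `E`. -/
def ClassMeets {p : ℕ} [Fact p.Prime] (E : IntermediateField ℚ_[p] (PadicAlgCl p))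
    (t : PadicAlgCl p) : Prop :=
  ∃ a b c d : algebraicClosure ℚ (PadicAlgCl p), a * d - b * c ≠ 0 ∧
    (c : PadicAlgCl p) * t + d ≠ 0 ∧
    ((a : PadicAlgCl p) * t + b) / ((c : PadicAlgCl p) * t + d) ∈ E

theorem classMeets_iff {p : ℕ} [Fact p.Prime] (E : IntermediateField ℚ_[p] (PadicAlgCl p))
    {t : PadicAlgCl p} (ht : ¬ IsAlgebraic ℚ t) :
    ClassMeets E t ↔ ∃ t' ∈ E, Run7.h788.Mob t t' := by
  constructor
  · rintro ⟨a, b, c, d, hdet, hne, hE⟩
    refine ⟨_, hE, !![a, b; c, d], by rwa [Matrix.det_fin_two_of], ?_⟩
    change _ / _ * ((c : PadicAlgCl p) * t + d) = (a : PadicAlgCl p) * t + b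
    rw [div_mul_cancel₀ _ hne]
  · rintro ⟨t', ht'E, P, hP, h⟩
    have hne := Run7.h788.den_ne ht hP
    refine ⟨P 0 0, P 0 1, P 1 0, P 1 1, by rwa [Matrix.det_fin_two] at hP, hne, ?_⟩
    rw [← h, mul_div_cancel_right₀ _ hne]
    exact ht'E

/-- **Main result.** -/
theorem result (p : ℕ) [Fact p.Prime] (L : PadicAlgCl p → PadicAlgCl p) (hL : IsIwasawaLog p L)
    (M : Matrix (Fin 2) (Fin 2) (PadicAlgCl p)) (hM : IsCounterexample L M) :
    ∃ E₀ : IntermediateField ℚ_[p] (PadicAlgCl p), FiniteDimensional ℚ_[p] E₀ ∧
      ∀ E : IntermediateField ℚ_[p] (PadicAlgCl p),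
        (E₀ ≤ E ↔ IsDefinedOver E M) ∧
        (E₀ ≤ E ↔ ClassMeets E (M 0 1 / M 0 0)) ∧
        (E₀ ≤ E ↔ ClassMeets E (M 1 0 / M 0 0)) ∧
        (E₀ ≤ E ↔ ∀ σ : PadicAlgCl p ≃ₐ[ℚ_[p]] PadicAlgCl p, (∀ x ∈ E, σ x = x) →
          Equivalent M (M.map σ)) := by
  have hL' : Pool.Agent.W245.PB.IsIwasawaLog p L := ⟨hL.1, hL.2.1, hL.2.2⟩
  have hM' : Pool.Agent.N770.IsCounter (Run7.h788.QQ p) M := ⟨hM.2.1, hM.2.2.1, hM.2.2.2⟩
  obtain ⟨ha, ht, hs, -⟩ := Run7.h788.counter_ne hM'
  obtain ⟨E₀, hfin, h⟩ := Run7.h788.field_of_definition hL' hM' hM.1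
  refine ⟨E₀, hfin, fun E => ?_⟩
  obtain ⟨h1, h2, h3, h4⟩ := h E
  refine ⟨h1, ?_, ?_, ?_⟩
  · rw [classMeets_iff E ht]
    exact h2
  · rw [classMeets_iff E hs]
    exact h3
  · rw [h4]
    constructor
    · intro h5 σ hσ
      exact h5 σ ((IntermediateField.mem_fixingSubgroup_iff E σ).2 hσ)
    · intro h5 σ hσ
      exact h5 σ ((IntermediateField.mem_fixingSubgroup_iff E σ).1 hσ)

end Pool.Agent.Results.MP_dd0d16_nt.FieldOfDefinition
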