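import Pool.Agent.Run7.h469.TR.Pdd0d16
import Pool.Agent.Run7.h469.Vm

/-!
# `p`-adic strong four exponentials over number fields: products of linear forms in almost all integer vectors, and in expansions of real vectors

Let `p` be a prime number, `L` the Iwasawa logarithm on the algebraic closure of `ℚ_p`, `K` a number field in it and `V` a
`K`-space of finite dimension in it. We call a tuple `(t_1, …, t_k)` of nonzero integers good if the logarithms `L(|t_i|)` are
linearly independent over `K` modulo `V`, and every `2 × 2` matrix over `V + ∑ K L(|t_i|)` which has an entry outside `V` and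
`K`-linearly independent rows and `K`-linearly independent columns has a determinant `≠ 0`.

Let `k, h ≥ 1` (for `h = 1` there are no products, only linear forms). We prove that for all integer vectors `x` in `[-X, X]^D`
with at most `C' Q^(k h (D + 2)) X^(D - c)` exceptions, `C'` depending on `D` and `p`, ALL `k`-tuples `t` of products of `h`
linear forms, `t_i = ∏_(j ≤ h) y_(i,j)` with `y = M x + b`, `M` an integral matrix of rank `k h`, `b` an integral vector, the
entries of `M` and `b` at most `Q`, all `y_(i,j) ≠ 0`, are good. Here `Q` can be a small power of `X`. We prove a similar result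
for the integer vectors near `N_n α`, `N_n` a lacunary sequence (for instance the truncations of the expansions in base `g`,
`N_n = g^n`), for all real vectors `α` outside a set of dimension less than `D`, and `M`, `b` with entries up to a power of `N_n`.
The number `c` depends only on `k` and on bounds for the degree of `K` and the dimension of `V`. For almost all `α` the last
result is true for ALL prime numbers `p` at the same time.

The starting theorem `TuplesPowerSaving` of this problem bounds the number of tuples up to `U` which are not good by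
`C p U^(k - c)`. The products of `h` integers form a set of density zero, and so the result for `h ≥ 2` does not follow from this
number alone: the divisor bound shows that few vectors `y` have a bad tuple of products, and for each of the possible `M`, `b` the
map `x ↦ M x + b` has small fibres. (The starting result `SumsOfThreeLogs` treats products of three integers, for almost all
integers, without linear forms.)
-/

set_option autoImplicit false

namespace Pool.Agent.Results.MP_dd0d16_nt.ProductsOfLinearForms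

open Finset MeasureTheory Module
open Run7.h469.Vk (Hits Lacunary Generic Avoids)
open Run7.h469.Vm (ProductIn)
open Run7.h469.TR.Pdd0d16 (few)
open Pool.Agent.Results.MP_dd0d16_nt.TuplesPowerSaving (IsIwasawaLog StrongFour)

/-- The `k`-tuples of nonzero integers which are not good. -/
def Bad {p : ℕ} [Fact p.Prime] (L : PadicAlgCl p → PadicAlgCl p) {K : IntermediateField ℚ (PadicAlgCl p)}
    (V : Submodule K (PadicAlgCl p)) (k : ℕ) : Set (Fin k → ℤ) :=
  {t | (∀ i, t i ≠ 0) ∧ ¬ StrongFour V (fun i => L (((t i).natAbs : ℕ) : PadicAlgCl p))}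

/-- **The `p`-adic strong four exponentials conjecture over number fields for products of linear forms.** Let `k ≥ 1`. For all
`d` and `m` there is `c > 0` and for all primes `p` and `h ≥ 1` there is `C` such that for the Iwasawa logarithm `L`, all number
fields `K` of degree at most `d` and all `K`-spaces `V` of dimension at most `m`: (1) for all `D` and `X, Q ≥ 1`, for all but
`C ((D + 1)^(k h) 3^((k h + 1) (D + 1))) Q^(k h (D + 2)) X^(D - c)` of the integer vectors `x` in `[-X, X]^D` no tuple of the
products `∏_(j ≤ h) y_(i,j)` of nonzero coordinates of a vector `y = M x + b`, `M` integral of rank `k h`, with entries of `M` and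
`b` at most `Q`, is bad; (2) for lacunary `N_i` and `η ≥ 0`, outside a set of `α` in `ℝ^D` of dimension at most
`D - c + k h (D + 2) η`, for all `A`, for all large `i` the same is true for the integer vectors `x` with `|x - N_i α| ≤ A` and
`M`, `b` with entries at most `A N_i^η`; (3) in particular it is true for almost all `α`, if `k h (D + 2) η < c`. (4) If for every
`p` the data `L`, `K`, `V` are given, then for almost all `α` this is true for all `p`. -/
theorem result (k d m : ℕ) (hk : 1 ≤ k) : ∃ c : ℝ, 0 < c ∧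
    (∀ (p : ℕ) [Fact p.Prime] (h : ℕ), 1 ≤ h → ∃ C : ℝ, ∀ L : PadicAlgCl p → PadicAlgCl p, IsIwasawaLog p L →
      ∀ K : IntermediateField ℚ (PadicAlgCl p), FiniteDimensional ℚ K → finrank ℚ K ≤ d →
      ∀ V : Submodule K (PadicAlgCl p), Module.Finite K V → finrank K V ≤ m →
      (∀ D X Q : ℕ, 1 ≤ X → 1 ≤ Q →
        (({x : Fin D → ℤ | (∀ j, |x j| ≤ X) ∧ x ∈ Hits (ProductIn h (Bad L V k)) D Q}.ncard : ℕ) : ℝ) ≤
          C * (((D : ℝ) + 1) ^ (k * h) * 3 ^ ((k * h + 1) * (D + 1))) * (Q : ℝ) ^ (k * h * (D + 2)) *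
            (X : ℝ) ^ ((D : ℝ) - c)) ∧
      (∀ D : ℕ, 1 ≤ D → ∀ N : ℕ → ℝ, Lacunary N → ∀ η : ℝ, 0 ≤ η →
        Generic ((D : ℝ) - c + k * h * (D + 2) * η)
          (fun α : Fin D → ℝ => Avoids (ProductIn h (Bad L V k)) N η α)) ∧
      ∀ D : ℕ, 1 ≤ D → ∀ N : ℕ → ℝ, Lacunary N → ∀ η : ℝ, 0 ≤ η → k * h * (D + 2) * η < c →
        ∀ᵐ α : Fin D → ℝ, Avoids (ProductIn h (Bad L V k)) N η α) ∧
    ∀ (L : ∀ (p : ℕ) [Fact p.Prime], PadicAlgCl p → PadicAlgCl p), (∀ (p : ℕ) [Fact p.Prime], IsIwasawaLog p (L p)) →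
      ∀ (K : ∀ (p : ℕ) [Fact p.Prime], IntermediateField ℚ (PadicAlgCl p)),
      (∀ (p : ℕ) [Fact p.Prime], FiniteDimensional ℚ (K p) ∧ finrank ℚ (K p) ≤ d) →
      ∀ (V : ∀ (p : ℕ) [Fact p.Prime], Submodule (K p) (PadicAlgCl p)),
      (∀ (p : ℕ) [Fact p.Prime], Module.Finite (K p) (V p) ∧ finrank (K p) (V p) ≤ m) →
      ∀ h D : ℕ, 1 ≤ h → 1 ≤ D → ∀ N : ℕ → ℝ, Lacunary N → ∀ η : ℝ, 0 ≤ η → k * h * (D + 2) * η < c →
        ∀ᵐ α : Fin D → ℝ, ∀ (p : ℕ) [Fact p.Prime], Avoids (ProductIn h (Bad (L p) (V p) k)) N η α := by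
  obtain ⟨c, hc, hc1, hf⟩ := few k d m
  have key : ∀ (p : ℕ) [Fact p.Prime] (h : ℕ), 1 ≤ h → ∃ C : ℝ, ∀ L : PadicAlgCl p → PadicAlgCl p, IsIwasawaLog p L →
      ∀ K : IntermediateField ℚ (PadicAlgCl p), FiniteDimensional ℚ K → finrank ℚ K ≤ d →
      ∀ V : Submodule K (PadicAlgCl p), Module.Finite K V → finrank K V ≤ m →
      (∀ D X Q : ℕ, 1 ≤ X → 1 ≤ Q →
        (({x : Fin D → ℤ | (∀ j, |x j| ≤ X) ∧ x ∈ Hits (ProductIn h (Bad L V k)) D Q}.ncard : ℕ) : ℝ) ≤
          C * (((D : ℝ) + 1) ^ (k * h) * 3 ^ ((k * h + 1) * (D + 1))) * (Q : ℝ) ^ (k * h * (D + 2)) *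
            (X : ℝ) ^ ((D : ℝ) - c / 2)) ∧
      (∀ D : ℕ, 1 ≤ D → ∀ N : ℕ → ℝ, Lacunary N → ∀ η : ℝ, 0 ≤ η →
        Generic ((D : ℝ) - c / 2 + k * h * (D + 2) * η)
          (fun α : Fin D → ℝ => Avoids (ProductIn h (Bad L V k)) N η α)) ∧
      ∀ D : ℕ, 1 ≤ D → ∀ N : ℕ → ℝ, Lacunary N → ∀ η : ℝ, 0 ≤ η → k * h * (D + 2) * η < c / 2 →
        ∀ᵐ α : Fin D → ℝ, Avoids (ProductIn h (Bad L V k)) N η α := by
    intro p _ h hh
    obtain ⟨C, hC, hf⟩ := hf p
    have hh1 : (1 : ℝ) ≤ h := by exact_mod_cast hh
    obtain ⟨C', -, key⟩ := Run7.h469.Vm.products_of_forms (k := k) (b := h) hk hh hC (c := c) (c' := c / 2)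
      (by linarith) (by linarith) (by nlinarith)
    exact ⟨C', fun L hL K hK hKd V hV hVm => key _ (hf L hL K hK hKd V hV hVm)⟩
  refine ⟨c / 2, by linarith, key, fun L hL K hK V hV h D hh hD N hN η hη hlt => ?_⟩
  have hae : ∀ᵐ α : Fin D → ℝ, ∀ q : {p : ℕ // Fact p.Prime},
      have := q.2
      Avoids (ProductIn h (Bad (L q.1) (V q.1) k)) N η α := by
    rw [ae_all_iff]
    rintro ⟨p, hp⟩
    obtain ⟨C, hC⟩ := key p h hh
    exact (hC (L p) (hL p) (K p) (hK p).1 (hK p).2 (V p) (hV p).1 (hV p).2).2.2 D hD N hN η hη hlt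
  filter_upwards [hae] with α hα p hp
  exact hα ⟨p, hp⟩

end Pool.Agent.Results.MP_dd0d16_nt.ProductsOfLinearForms
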