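import Mathlib
import Pool.Agent.Run7.h788.RandTwo

/-!
# The `p`-adic strong four exponentials conjecture for random first rows

Let `ℚ̄` be the field of algebraic numbers in the algebraic closure of `ℚ_p` and `LogForms` the space of
all linear combinations, with algebraic coefficients, of `1` and of all values of the Iwasawa logarithm
at algebraic numbers.  Let `V` be a `ℚ̄`-space of dimension at most `m` of arbitrary elements.  We say
that `y_1, …, y_n` is a generic row over `V` if `V' = V + ℚ̄ y_1 + ⋯ + ℚ̄ y_n` has dimension `dim V + n`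
and every `2 × 2` matrix with first row in `V'` and not in `V`, ARBITRARY second row in `LogForms + V`
and with linearly independent rows and columns is regular.

Let `λ_{j1}, …, λ_{jk}` (`j = 1, …, n`) be arbitrary families in `LogForms + V` which are linearly
independent over `ℚ̄`; for instance, by the theorem of Brumer, arbitrary `p`-adic logarithms of algebraic
numbers which are linearly independent over `ℚ` (for different `j` they may be the same).  Let
`ζ_1, …, ζ_n` be arbitrary elements of `LogForms + V`, for instance `0`, and let `X` be an arbitrary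
nonempty finite set of rational numbers, for instance `{0, 1}`.  Then, for `k ≥ k₀`, the row

  `y_j = ζ_j + ∑_i a_{ji} λ_{ji}`  (`j = 1, …, n`)

is a generic row over `V` for all but `C |X| ^ (n k - δ k)` of the `|X| ^ (n k)` matrices `a` with entries
in `X`.  The constants `k₀`, `C` and `δ > 0` depend only on `n` and `dim V`, and not on `p`, `V`, `λ`,
`ζ` and `X`.  So the `p`-adic strong four exponentials conjecture holds for all matrices whose first row
consists of the logarithms of two random products of `k` given multiplicatively independent algebraic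
numbers (independent modulo the kernel of the logarithm), with exponentially few exceptions in `k`, and
the second row is arbitrary.

Known before (starting files): the first row consists of logarithms of positive integers up to `x`, with
the saving `(log log x) ^ C / log x` (`GenericRow`); tuples, not arbitrary second rows, with a power
saving (`TuplesPowerSaving`); sums of three logarithms (`SumsOfThreeLogs`).

The proof.  By the hyperplane case of the linear subgroup theorem of Waldschmidt and Roy over the
`p`-adic numbers (`Pool.Agent.W254.PA`) every cube in sufficiently many linearly independent directions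
contains a point which is generic over the stage before (`Pool.Agent.R350`).  So the exceptional
parameters contain no nondegenerate cube, and an iterated Cauchy-Schwarz inequality
(`Pool.Agent.Y918.OL.cube_count`) shows that they are exponentially rare.  The counting over the stages is
in `Pool.Agent.Run7.h788.RandTwo`.
-/

set_option autoImplicit false

namespace Pool.Agent.Results.MP_dd0d16_nt.RandomRows

open Module

/-- `L` is the Iwasawa `p`-adic logarithm on the algebraic closure of `ℚ_p`. -/
def IsIwasawaLog (p : ℕ) [Fact p.Prime] (L : PadicAlgCl p → PadicAlgCl p) : Prop :=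
  (∀ x y : PadicAlgCl p, x ≠ 0 → y ≠ 0 → L (x * y) = L x + L y) ∧
  L ((p : ℕ) : PadicAlgCl p) = 0 ∧
  ∀ z : PadicAlgCl p, ‖z‖ < 1 →
    HasSum (fun n : ℕ => (-1 : PadicAlgCl p) ^ n * z ^ (n + 1) / ((n : PadicAlgCl p) + 1))
      (L (1 + z))

/-- The linear forms in `1` and the logarithms `L α` of nonzero algebraic numbers `α`, with algebraic
coefficients. -/
noncomputable def LogForms {p : ℕ} [Fact p.Prime] (L : PadicAlgCl p → PadicAlgCl p) :
    Submodule (algebraicClosure ℚ (PadicAlgCl p)) (PadicAlgCl p) :=
  Submodule.span (algebraicClosure ℚ (PadicAlgCl p))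
    ({1} ∪ {z | ∃ α : PadicAlgCl p, α ≠ 0 ∧ IsAlgebraic ℚ α ∧ z = L α})

/-- the strong four exponentials conjecture holds for all matrices with first row in
`V + ℚ̄ y_1 + ⋯ + ℚ̄ y_n` and not in `V`, and arbitrary second row in `LogForms + V` -/
def IsGenericRow {p : ℕ} [Fact p.Prime] (L : PadicAlgCl p → PadicAlgCl p)
    (V : Submodule (algebraicClosure ℚ (PadicAlgCl p)) (PadicAlgCl p)) {n : ℕ}
    (y : Fin n → PadicAlgCl p) : Prop :=
  finrank (algebraicClosure ℚ (PadicAlgCl p))
      (V ⊔ Submodule.span (algebraicClosure ℚ (PadicAlgCl p)) (Set.range y) :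
        Submodule (algebraicClosure ℚ (PadicAlgCl p)) (PadicAlgCl p)) =
      finrank (algebraicClosure ℚ (PadicAlgCl p)) V + n ∧
  ∀ M : Matrix (Fin 2) (Fin 2) (PadicAlgCl p),
    (∀ j, M 0 j ∈ V ⊔ Submodule.span (algebraicClosure ℚ (PadicAlgCl p)) (Set.range y)) →
    (∀ j, M 1 j ∈ LogForms L ⊔ V) →
    (∃ j, M 0 j ∉ V) →
    LinearIndependent (algebraicClosure ℚ (PadicAlgCl p))
      (fun i : Fin 2 => fun j : Fin 2 => M i j) →
    LinearIndependent (algebraicClosure ℚ (PadicAlgCl p))
      (fun j : Fin 2 => fun i : Fin 2 => M i j) →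
    M.det ≠ 0

theorem genericRow_of_good2f {p : ℕ} [Fact p.Prime] (L : PadicAlgCl p → PadicAlgCl p)
    (V : Submodule (algebraicClosure ℚ (PadicAlgCl p)) (PadicAlgCl p)) {n : ℕ}
    (y : Fin n → PadicAlgCl p)
    (h : Pool.Agent.R350.Good2f V (Pool.Agent.W254.PA.LtE (Pool.Agent.W254.PA.logs L)) y) :
    IsGenericRow L V y := by
  refine ⟨h.1, fun M hM0 hM1 hV hrow hcol hdet => ?_⟩
  have hdet' : M 0 0 * M 1 1 = M 0 1 * M 1 0 := by
    rw [Matrix.det_fin_two] at hdet
    linear_combination hdet
  have hM1' : ∀ j, M 1 j ∈ Pool.Agent.W254.PA.LtE (Pool.Agent.W254.PA.logs L) ⊔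
      Submodule.span (algebraicClosure ℚ (PadicAlgCl p)) (V : Set (PadicAlgCl p)) := by
    intro j
    rw [Submodule.span_eq]
    exact hM1 j
  rcases h.2 (fun j => M 0 j) (fun j => M 1 j) hM0 hM1' hdet'
    (Pool.Agent.R350.row_li M hdet' hrow hcol) with ⟨ρ, hρ⟩ | h
  · have h1 := Fintype.linearIndependent_iff.1 hrow ![ρ, -1] (by
      rw [Fin.sum_univ_two]
      funext j
      simp only [Matrix.cons_val_zero, Matrix.cons_val_one, Pi.add_apply, Pi.smul_apply,
        Pi.zero_apply]
      rw [hρ j, neg_smul, one_smul]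
      ring) 1
    simp at h1
  · obtain ⟨j, hj⟩ := hV
    exact hj (h j)

open Classical in
/-- **Main result.** -/
theorem result (n m : ℕ) :
    ∃ (k₀ C : ℕ) (δ : ℝ), 0 < δ ∧
      ∀ (p : ℕ) [Fact p.Prime] (L : PadicAlgCl p → PadicAlgCl p), IsIwasawaLog p L →
      ∀ V : Submodule (algebraicClosure ℚ (PadicAlgCl p)) (PadicAlgCl p),
      Module.Finite (algebraicClosure ℚ (PadicAlgCl p)) V →
      finrank (algebraicClosure ℚ (PadicAlgCl p)) V ≤ m →
      ∀ k ≥ k₀, ∀ lam : Fin n → Fin k → PadicAlgCl p,
      (∀ j i, lam j i ∈ LogForms L ⊔ V) →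
      (∀ j, LinearIndependent (algebraicClosure ℚ (PadicAlgCl p)) (lam j)) →
      ∀ ζ : Fin n → PadicAlgCl p, (∀ j, ζ j ∈ LogForms L ⊔ V) →
      ∀ X : Finset ℚ, X.Nonempty →
      (((Fintype.piFinset fun _ : Fin n => Fintype.piFinset fun _ : Fin k => X).filter fun a =>
        ¬ IsGenericRow L V (fun j => ζ j + ∑ i, (a j i : PadicAlgCl p) * lam j i)).card : ℝ) ≤
        C * (X.card : ℝ) ^ ((n * k : ℝ) - δ * k) := by
  obtain ⟨k₀, C, δ, hδ, h⟩ := Run7.h788.rand_two n m 0
  refine ⟨k₀, C, δ, hδ, fun p _ L hL V hVf hVm k hk lam hlam hli ζ hζ X hX => ?_⟩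
  have hL' : Pool.Agent.W245.PB.IsIwasawaLog p L := ⟨hL.1, hL.2.1, hL.2.2⟩
  have hS := Pool.Agent.R350.setup_padic hL'
  have heq : Pool.Agent.W254.PA.LtE (Pool.Agent.W254.PA.logs L) ⊔
      Submodule.span (algebraicClosure ℚ (PadicAlgCl p)) (V : Set (PadicAlgCl p)) =
        LogForms L ⊔ V := by
    rw [Submodule.span_eq]
    rfl
  have h5 := h k hk (algebraicClosure ℚ (PadicAlgCl p)) (algebraicClosure ℚ (PadicAlgCl p))
    (PadicAlgCl p) (Pool.Agent.W254.PA.LtE (Pool.Agent.W254.PA.logs L)) hS.hyp hS.one V hVf hVm lam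
    (fun j i => by rw [heq]; exact hlam j i) hli X hX ζ (fun j => by rw [heq]; exact hζ j)
  refine le_trans (Nat.cast_le.2 (Finset.card_le_card ?_)) h5
  intro a ha
  rw [Finset.mem_filter] at ha ⊢
  exact ⟨ha.1, fun hgood => ha.2 (genericRow_of_good2f L V _ hgood)⟩

end Pool.Agent.Results.MP_dd0d16_nt.RandomRows
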